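import Pool.Agent.helper34.MO.SpecC

open Complex Finset

namespace Pool.Agent.MO

theorem LAB_root (t : ℝ) (τ : Tr) (ma mb : ℕ) (x : Bool) (y : ℝ)
    (h : rootL (lab t τ ma mb x) = some y) :
    τ ≠ Tr.e ∧ τ.cnt < 13 ∧ y = if x then 1 else t := by
  cases τ with
  | e => simp [lab, rootL] at h
  | nd l r =>
    by_cases h1 : 13 ≤ l.rs + r.ls
    · rw [lab, if_pos h1] at h
      simp [rootL] at h
    · rw [lab, if_neg h1] at h
      simp only [rootL, Option.some.injEq] at h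
      refine ⟨by simp, ?_, h.symm⟩
      rw [Tr.cnt]
      omega

theorem LAB_chi (hCHI : CHI_stmt) (t : ℝ) (h0 : 0 < t) (h1 : t ≤ 1) :
    0 ≤ Real.pi / 2 - 2 * Real.arctan (Real.sqrt t) ∧
    chi 1 t ≤ Real.pi / 2 - 2 * Real.arctan (Real.sqrt t) := by
  have h2 : Real.arctan (Real.sqrt t) ≤ Real.pi / 4 := by
    rw [← Real.arctan_one]
    exact Real.arctan_strictMono.monotone (Real.sqrt_le_one.2 h1)
  refine ⟨by linarith, ?_⟩
  rcases lt_or_eq_of_le h1 with h | h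
  · exact (hCHI.2.2.2 t h0 h).le
  · rw [h, hCHI.1 1 one_pos, Real.sqrt_one, Real.arctan_one]
    linarith

theorem LAB (hCHI : CHI_stmt) : LAB_stmt := by
  intro t τ ma mb x h0 h1
  obtain ⟨hc1, hc2⟩ := LAB_chi hCHI t h0 h1
  have hpi := Real.pi_pos
  induction τ generalizing ma mb x with
  | e =>
    refine ⟨trivial, trivial, trivial, fun R _ => ⟨trivial, trivial, trivial, ?_⟩⟩
    simp [lab, fill, uni, wdist, hc, xc]
  | nd l r ihl ihr =>
    obtain ⟨l1, l2, l3, l4⟩ := ihl ma (l.rs + r.ls) (lossy l r ma mb)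
    obtain ⟨r1, r2, r3, r4⟩ := ihr (l.rs + r.ls) mb (lossy l r ma mb)
    have hxc : ((xc (.nd l r) ma mb x : ℕ) : ℝ) = (if x then 1 else 0) +
        (xc l ma (l.rs + r.ls) (lossy l r ma mb) : ℝ) +
        (xc r (l.rs + r.ls) mb (lossy l r ma mb) : ℝ) := by
      rw [xc]
      push_cast
      rfl
    have hx0 : 0 ≤ (if x then (1 : ℝ) else 0) := by split_ifs <;> norm_num
    by_cases hh : 13 ≤ l.rs + r.ls
    · have hd : decide (l.rs + r.ls < 13) = false := by simp; omega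
      rw [hd] at l1 r1
      rw [lab, if_pos hh]
      refine ⟨⟨l1, r1⟩, ⟨l2, r2⟩, ⟨l3, r3⟩, ?_⟩
      intro R hR
      obtain ⟨l5, l6, l7, l8⟩ := l4 R hR
      obtain ⟨r5, r6, r7, r8⟩ := r4 R hR
      refine ⟨⟨l5, r5⟩, ⟨hR, l6, r6⟩, ⟨h0, l7, r7⟩, ?_⟩
      have hhc : ((hc (.nd l r) : ℕ) : ℝ) = 1 + (hc l : ℝ) + (hc r : ℝ) := by
        rw [hc, if_pos hh]
        push_cast
        rfl
      rw [hxc, hhc]
      show chi R t + wdist _ _ + wdist _ _ ≤ _
      have h3 := (hCHI.2.1 R t hR h0).2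
      have h4 := mul_nonneg hx0 hc1
      nlinarith
    · have hd : decide (l.rs + r.ls < 13) = true := by simp; omega
      rw [hd] at l1 r1
      rw [lab, if_neg hh]
      have hl : 0 < (if x then (1 : ℝ) else t) ∧ (if x then (1 : ℝ) else t) ≤ 1 := by
        split_ifs
        · norm_num
        · exact ⟨h0, h1⟩
      refine ⟨⟨hl.1, hl.2, l1, r1, ?_⟩, ⟨hl.1, l2, r2⟩, ⟨le_refl _, l3, r3⟩, ?_⟩
      · intro ha hb y z hy hz
        obtain ⟨hy1, hy2, hy3⟩ := LAB_root _ _ _ _ _ _ hy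
        obtain ⟨hz1, hz2, hz3⟩ := LAB_root _ _ _ _ _ _ hz
        have hlo : lossy l r ma mb = true := by
          rw [lossy, ha, hb, hd]
          simp [hy1, hy2, hz1, hz2]
        rw [hlo, if_pos rfl] at hy3 hz3
        exact ⟨hy3, hz3⟩
      · intro R hR
        obtain ⟨l5, l6, l7, l8⟩ := l4 R hR
        obtain ⟨r5, r6, r7, r8⟩ := r4 R hR
        refine ⟨⟨l5, r5⟩, ⟨hl.1, l6, r6⟩, ⟨h0, l7, r7⟩, ?_⟩
        have hhc : ((hc (.nd l r) : ℕ) : ℝ) = (hc l : ℝ) + (hc r : ℝ) := by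
          rw [hc, if_neg hh, zero_add]
          push_cast
          rfl
        rw [hxc, hhc]
        show chi (if x then (1 : ℝ) else t) t + wdist _ _ + wdist _ _ ≤ _
        have h3 : chi (if x then (1 : ℝ) else t) t ≤
            (if x then (1 : ℝ) else 0) * (Real.pi / 2 - 2 * Real.arctan (Real.sqrt t)) := by
          split_ifs
          · rw [one_mul]
            exact hc2
          · rw [zero_mul, hCHI.1 t h0]
        nlinarith

end Pool.Agent.MO
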