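import Pool.Agent.helper34.MO.SpecC

open Complex Finset

namespace Pool.Agent.MO

theorem LIM_re {A B m : ℂ} (h : Acc2 A B m) : 0 < (B - m ^ 2 / A).re := by
  obtain ⟨hA, hB, hm⟩ := h
  have hn : 0 < A.re ^ 2 + A.im ^ 2 := by positivity
  have h1 : (m ^ 2 / A).re = ((m.re ^ 2 - m.im ^ 2) * A.re + 2 * m.re * m.im * A.im) /
      (A.re ^ 2 + A.im ^ 2) := by
    rw [Complex.div_re, Complex.normSq_apply, pow_two m, Complex.mul_re, Complex.mul_im]
    field_simp
    ring
  have h2 : (m ^ 2 / A).re ≤ m.re ^ 2 / A.re := by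
    rw [h1, div_le_div_iff₀ hn hA]
    nlinarith [sq_nonneg (m.im * A.re - m.re * A.im)]
  have h3 : m.re ^ 2 / A.re < B.re := by
    rw [div_lt_iff₀ hA]
    linarith
  rw [Complex.sub_re]
  linarith

theorem LIM_R0 : Filter.Tendsto (fun R : ℝ => ((R : ℂ))⁻¹) Filter.atTop (nhds 0) := by
  have h := (Complex.continuous_ofReal.tendsto 0).comp tendsto_inv_atTop_zero
  rw [Complex.ofReal_zero] at h
  refine h.congr (fun R => ?_)
  rw [Function.comp_apply, Complex.ofReal_inv]

theorem LIM_g {f : ℝ → ℂ} {z : ℂ} (h : Filter.Tendsto f Filter.atTop (nhds z)) :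
    Filter.Tendsto (fun R : ℝ => 1 + ((R : ℂ))⁻¹ * f R) Filter.atTop (nhds 1) := by
  have h1 := (LIM_R0.mul h).const_add 1
  rwa [zero_mul, add_zero] at h1

theorem LIM_arg {f : ℝ → ℂ} {z : ℂ} (h : Filter.Tendsto f Filter.atTop (nhds z)) :
    Filter.Tendsto (fun R : ℝ => arg ((R : ℂ) + f R)) Filter.atTop (nhds 0) := by
  have h1 : Filter.Tendsto (fun R : ℝ => arg (1 + ((R : ℂ))⁻¹ * f R)) Filter.atTop
      (nhds (arg 1)) :=
    ((Complex.continuousAt_arg (by simp [Complex.mem_slitPlane_iff])).tendsto).comp (LIM_g h)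
  rw [Complex.arg_one] at h1
  refine h1.congr' ?_
  filter_upwards [Filter.eventually_gt_atTop (0 : ℝ)] with R hR
  have hR' : (R : ℂ) ≠ 0 := Complex.ofReal_ne_zero.2 hR.ne'
  have h2 : (R : ℂ) + f R = (R : ℂ) * (1 + ((R : ℂ))⁻¹ * f R) := by
    field_simp
  rw [h2, Complex.arg_real_mul _ hR]

theorem LIM_inv {f : ℝ → ℂ} {z : ℂ} (h : Filter.Tendsto f Filter.atTop (nhds z)) :
    Filter.Tendsto (fun R : ℝ => ((R : ℂ) + f R)⁻¹) Filter.atTop (nhds 0) := by
  have h1 := LIM_R0.mul ((LIM_g h).inv₀ one_ne_zero)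
  rw [zero_mul] at h1
  refine h1.congr' ?_
  filter_upwards [Filter.eventually_gt_atTop (0 : ℝ)] with R hR
  have hR' : (R : ℂ) ≠ 0 := Complex.ofReal_ne_zero.2 hR.ne'
  have h2 : (R : ℂ) + f R = (R : ℂ) * (1 + ((R : ℂ))⁻¹ * f R) := by
    field_simp
  rw [h2, mul_inv]

theorem LIM_argc {f : ℝ → ℂ} {z : ℂ} (hz : 0 < z.re)
    (h : Filter.Tendsto f Filter.atTop (nhds z)) :
    Filter.Tendsto (fun R : ℝ => arg (f R)) Filter.atTop (nhds (arg z)) :=
  ((Complex.continuousAt_arg (Complex.mem_slitPlane_iff.2 (Or.inl hz))).tendsto).comp h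

/-- convergence of the four data -/
def LIM_T (t : WT) : Prop :=
  Filter.Tendsto (fun R : ℝ => (bd (fill R t)).psi) Filter.atTop (nhds (bd t).psi) ∧
  Filter.Tendsto (fun R : ℝ => (bd (fill R t)).al) Filter.atTop (nhds (bd t).al) ∧
  Filter.Tendsto (fun R : ℝ => (bd (fill R t)).be) Filter.atTop (nhds (bd t).be) ∧
  Filter.Tendsto (fun R : ℝ => (bd (fill R t)).mu) Filter.atTop (nhds (bd t).mu)

theorem LIM_ne {z : ℂ} (hz : 0 < z.re) : z ≠ 0 := by
  rintro rfl
  simp at hz

theorem LIM_all (hACT : ACT_stmt) : ∀ t : WT, PosW t → LIM_T t := by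
  intro t
  induction t with
  | e =>
    intro _
    exact ⟨tendsto_const_nhds, tendsto_const_nhds, tendsto_const_nhds, tendsto_const_nhds⟩
  | nd o l r ihl ihr =>
    intro ht
    cases o with
    | none =>
      obtain ⟨hl, hr⟩ := ht
      obtain ⟨l1, l2, l3, l4⟩ := ihl hl
      obtain ⟨r1, r2, r3, r4⟩ := ihr hr
      have hz := l3.add r2
      have hp : ∀ R : ℝ, pv R (bd (fill R l)) (bd (fill R r)) =
          (R : ℂ) + ((bd (fill R l)).be + (bd (fill R r)).al) := by
        intro R
        rw [pv, add_assoc]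
      have ha := LIM_arg hz
      have hi := LIM_inv hz
      refine ⟨?_, ?_, ?_, ?_⟩
      · have h := (l1.add r1).add ha
        rw [add_zero] at h
        refine h.congr (fun R => ?_)
        show _ = (bd (fill R l)).psi + (bd (fill R r)).psi + arg (pv R (bd (fill R l)) (bd (fill R r)))
        rw [hp]
      · have h := l2.sub (((l4.sub_const I).pow 2).mul hi)
        rw [mul_zero, sub_zero] at h
        refine h.congr (fun R => ?_)
        show _ = (bd (fill R l)).al - ((bd (fill R l)).mu - I) ^ 2 / (pv R (bd (fill R l)) (bd (fill R r)))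
        rw [hp, div_eq_mul_inv]
      · have h := r3.sub (((r4.sub_const I).pow 2).mul hi)
        rw [mul_zero, sub_zero] at h
        refine h.congr (fun R => ?_)
        show _ = (bd (fill R r)).be - ((bd (fill R r)).mu - I) ^ 2 / (pv R (bd (fill R l)) (bd (fill R r)))
        rw [hp, div_eq_mul_inv]
      · have h := (((l4.sub_const I).mul (r4.sub_const I)).neg).mul hi
        rw [mul_zero] at h
        refine h.congr (fun R => ?_)
        show _ = -(((bd (fill R l)).mu - I) * ((bd (fill R r)).mu - I)) /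
          (pv R (bd (fill R l)) (bd (fill R r)))
        rw [hp, div_eq_mul_inv]
    | some T =>
      obtain ⟨hT, hl, hr⟩ := ht
      obtain ⟨l1, l2, l3, l4⟩ := ihl hl
      obtain ⟨r1, r2, r3, r4⟩ := ihr hr
      have hpr : 0 < (pv T (bd l) (bd r)).re := by
        have h1 := (hACT l hl).2.1
        have h2 := (hACT r hr).1
        rw [pv, Complex.add_re, Complex.add_re, Complex.ofReal_re]
        linarith
      have hp : Filter.Tendsto (fun R : ℝ => pv T (bd (fill R l)) (bd (fill R r)))
          Filter.atTop (nhds (pv T (bd l) (bd r))) := (l3.const_add (T : ℂ)).add r2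
      have ha := LIM_argc hpr hp
      have hne := LIM_ne hpr
      refine ⟨?_, ?_, ?_, ?_⟩
      · exact (l1.add r1).add ha
      · exact l2.sub (((l4.sub_const I).pow 2).div hp hne)
      · exact r3.sub (((r4.sub_const I).pow 2).div hp hne)
      · exact (((l4.sub_const I).mul (r4.sub_const I)).neg).div hp hne

theorem LIM (hACT : ACT_stmt) : LIM_stmt := by
  intro t a b ht ha hb
  obtain ⟨h1, h2, h3, h4⟩ := LIM_all hACT t ht
  obtain ⟨p1, p2, p3⟩ := hACT t ht
  have hm := h4.sub_const I
  have hmre : ((bd t).mu - I).re = (bd t).mu.re := by simp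
  cases a with
  | some x =>
    have hx : 0 < x := ha x rfl
    have hA : Filter.Tendsto (fun R : ℝ => (x : ℂ) + (bd (fill R t)).al) Filter.atTop
        (nhds ((x : ℂ) + (bd t).al)) := h2.const_add _
    have hAre : 0 < ((x : ℂ) + (bd t).al).re := by
      rw [Complex.add_re, Complex.ofReal_re]
      linarith
    have hq := ((hm.pow 2).div hA (LIM_ne hAre))
    cases b with
    | some y =>
      have hy : 0 < y := hb y rfl
      have hB : Filter.Tendsto (fun R : ℝ => (y : ℂ) + (bd (fill R t)).be) Filter.atTop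
          (nhds ((y : ℂ) + (bd t).be)) := h3.const_add _
      have hBre : 0 < ((y : ℂ) + (bd t).be).re := by
        rw [Complex.add_re, Complex.ofReal_re]
        linarith
      have hacc : Acc2 ((x : ℂ) + (bd t).al) ((y : ℂ) + (bd t).be) ((bd t).mu - I) := by
        refine ⟨hAre, hBre, ?_⟩
        rw [hmre, Complex.add_re, Complex.ofReal_re, Complex.add_re, Complex.ofReal_re]
        nlinarith [mul_nonneg hx.le p2, mul_nonneg hy.le p1, mul_pos hx hy]
      exact h1.add ((LIM_argc hAre hA).add (LIM_argc (LIM_re hacc) (hB.sub hq)))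
    | none =>
      have hz := h3.sub hq
      have hB := LIM_arg hz
      have h := h1.add ((LIM_argc hAre hA).add hB)
      rw [add_zero] at h
      refine h.congr (fun R => ?_)
      show _ = (bd (fill R t)).psi + (arg ((x : ℂ) + (bd (fill R t)).al) +
        arg (((R : ℂ) + (bd (fill R t)).be) - ((bd (fill R t)).mu - I) ^ 2 /
          ((x : ℂ) + (bd (fill R t)).al)))
      rw [add_sub_assoc]
      rfl
  | none =>
    have hA := LIM_arg h2
    have hi := LIM_inv h2
    have hq := (hm.pow 2).mul hi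
    rw [mul_zero] at hq
    cases b with
    | some y =>
      have hy : 0 < y := hb y rfl
      have hB : Filter.Tendsto (fun R : ℝ => (y : ℂ) + (bd (fill R t)).be) Filter.atTop
          (nhds ((y : ℂ) + (bd t).be)) := h3.const_add _
      have hBre : 0 < ((y : ℂ) + (bd t).be).re := by
        rw [Complex.add_re, Complex.ofReal_re]
        linarith
      have hB2 := hB.sub hq
      rw [sub_zero] at hB2
      have h := h1.add (hA.add (LIM_argc hBre hB2))
      rw [zero_add] at h
      refine h.congr (fun R => ?_)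
      show _ = (bd (fill R t)).psi + (arg ((R : ℂ) + (bd (fill R t)).al) +
        arg (((y : ℂ) + (bd (fill R t)).be) - ((bd (fill R t)).mu - I) ^ 2 /
          ((R : ℂ) + (bd (fill R t)).al)))
      rw [div_eq_mul_inv]
    | none =>
      have hz := h3.sub hq
      have hB := LIM_arg hz
      have h := h1.add (hA.add hB)
      rw [zero_add, add_zero] at h
      refine h.congr (fun R => ?_)
      show _ = (bd (fill R t)).psi + (arg ((R : ℂ) + (bd (fill R t)).al) +
        arg (((R : ℂ) + (bd (fill R t)).be) - ((bd (fill R t)).mu - I) ^ 2 /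
          ((R : ℂ) + (bd (fill R t)).al)))
      rw [div_eq_mul_inv, add_sub_assoc]

end Pool.Agent.MO
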