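import Pool.Agent.helper34.MO.SpecD

open Complex Finset

namespace Pool.Agent.MO

/-- the recursion for an abstract non crossing relation on the natural numbers -/
theorem STR_claim (hATS : ATS_stmt) (n : ℕ) (E : ℕ → ℕ → Prop)
    (hsym : ∀ x y, E x y → E y x) (hirr : ∀ x, ¬ E x x)
    (hcr : ∀ a b c d, a < b → b < c → c < d → E a c → E b d → False)
    (hmax : ∀ x y, x < y → y < n →
      (∀ a b, E a b → a < x → x < b → b < y → False) →
      (∀ a b, E a b → x < a → a < y → y < b → False) → E x y) :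
    ∀ m i j : ℕ, j - i = m → i < j → j < n → E i j → ∃ t : Tr, t.sz + 1 = j - i ∧
      ∀ x y, i ≤ x → x ≤ j → i ≤ y → y ≤ j → ¬ (x = i ∧ y = j) → ¬ (x = j ∧ y = i) →
        (E x y → AT t i x y = 1) ∧ (¬ E x y → AT t i x y = 0) := by
  classical
  intro m
  induction m using Nat.strong_induction_on with
  | _ m ih =>
  intro i j hm hij hjn hE
  have hcons : ∀ i, i + 1 < n → E i (i + 1) := by
    intro i hi
    apply hmax i (i + 1) (by omega) hi
    · intro a b _ h1 h2 h3
      omega
    · intro a b _ h1 h2 h3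
      omega
  by_cases h1 : j = i + 1
  · refine ⟨Tr.e, ?_, ?_⟩
    · rw [h1]
      simp [Tr.sz]
    · intro x y hx1 hx2 hy1 hy2 hn1 hn2
      have hxy : x = y := by omega
      subst hxy
      exact ⟨fun h => absurd h (hirr x), fun _ => by simp [AT]⟩
  · have hij1 : i + 1 < j := by omega
    -- the largest neighbour of i
    have hne : ((range j).filter (fun k => i < k ∧ E i k)).Nonempty :=
      ⟨i + 1, Finset.mem_filter.2 ⟨Finset.mem_range.2 hij1, by omega, hcons i (by omega)⟩⟩
    obtain ⟨k, hk, hkmax⟩ : ∃ k ∈ (range j).filter (fun k => i < k ∧ E i k),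
        ∀ k' ∈ (range j).filter (fun k => i < k ∧ E i k), k' ≤ k :=
      ⟨_, Finset.max'_mem _ hne, fun k' hk' => Finset.le_max' _ k' hk'⟩
    rw [Finset.mem_filter, Finset.mem_range] at hk
    obtain ⟨hkj, hik, hEik⟩ := hk
    have hkm : ∀ k', k < k' → k' < j → ¬ E i k' := by
      intro k' h2 h3 h4
      have := hkmax k' (Finset.mem_filter.2 ⟨Finset.mem_range.2 h3, by omega, h4⟩)
      omega
    have hEkj : E k j := by
      apply hmax k j hkj hjn
      · intro a b hab h2 h3 h4
        rcases lt_trichotomy a i with h5 | h5 | h5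
        · exact hcr a i b j h5 (by omega) h4 hab hE
        · rw [h5] at hab
          exact hkm b h3 h4 hab
        · exact hcr i a k b h5 h2 h3 hEik hab
      · intro a b hab h2 h3 h4
        exact hcr i a j b (by omega) h3 h4 hE hab
    obtain ⟨tl, htl, hl⟩ := ih (k - i) (by omega) i k rfl hik (by omega) hEik
    obtain ⟨tr, htr, hr⟩ := ih (j - k) (by omega) k j rfl hkj hjn hEkj
    have hk1 : i + tl.sz + 1 = k := by omega
    have hj1 : k + tr.sz + 1 = j := by omega
    have hval : ∀ x y, AT (Tr.nd tl tr) i x y =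
        (if (x = i ∧ y = k) ∨ (x = k ∧ y = i) ∨ (x = k ∧ y = j) ∨ (x = j ∧ y = k)
          then 1 else 0) + AT tl i x y + AT tr k x y := by
      intro x y
      rw [AT, hk1, hj1]
    have hsl : ∀ x y, (x < i ∨ k < x ∨ y < i ∨ k < y) → AT tl i x y = 0 := by
      intro x y h
      by_contra h0
      have := (hATS.1 tl i x y).2.2.2.1 h0
      omega
    have hsr : ∀ x y, (x < k ∨ j < x ∨ y < k ∨ j < y) → AT tr k x y = 0 := by
      intro x y h
      by_contra h0
      have := (hATS.1 tr k x y).2.2.2.1 h0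
      omega
    have hl0 : AT tl i i k = 0 := by
      have := (hATS.1 tl i 0 0).2.2.2.2
      rwa [hk1] at this
    have hl0' : AT tl i k i = 0 := by rw [(hATS.1 tl i k i).1, hl0]
    have hr0 : AT tr k k j = 0 := by
      have := (hATS.1 tr k 0 0).2.2.2.2
      rwa [hj1] at this
    have hr0' : AT tr k j k = 0 := by rw [(hATS.1 tr k j k).1, hr0]
    -- the statement for x ≤ y
    have key : ∀ x y, i ≤ x → x ≤ y → y ≤ j → ¬ (x = i ∧ y = j) →
        (E x y → AT (Tr.nd tl tr) i x y = 1) ∧ (¬ E x y → AT (Tr.nd tl tr) i x y = 0) := by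
      intro x y hx hxy hy hn1
      rw [hval]
      by_cases hp1 : x = i ∧ y = k
      · obtain ⟨rfl, rfl⟩ := hp1
        rw [if_pos (Or.inl ⟨rfl, rfl⟩), hl0, hsr _ _ (Or.inl hik)]
        exact ⟨fun _ => by norm_num, fun h => absurd hEik h⟩
      by_cases hp2 : x = k ∧ y = j
      · obtain ⟨rfl, rfl⟩ := hp2
        rw [if_pos (Or.inr (Or.inr (Or.inl ⟨rfl, rfl⟩))), hr0, hsl _ _ (by omega)]
        exact ⟨fun _ => by norm_num, fun h => absurd hEkj h⟩
      rw [if_neg (by omega), zero_add]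
      by_cases hyk : y ≤ k
      · have h0 : AT tr k x y = 0 := by
          by_cases hxk : x < k
          · exact hsr _ _ (Or.inl hxk)
          · have h2 : x = k := by omega
            have h3 : y = k := by omega
            rw [h2, h3]
            exact (hATS.1 tr k k k).2.2.1
        rw [h0, add_zero]
        exact hl x y hx (by omega) (by omega) hyk hp1 (by omega)
      · by_cases hxk : k ≤ x
        · have h0 : AT tl i x y = 0 := hsl _ _ (by omega)
          rw [h0, zero_add]
          exact hr x y hxk (by omega) (by omega) hy hp2 (by omega)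
        · rw [hsl x y (by omega), hsr x y (by omega), add_zero]
          refine ⟨fun h => ?_, fun _ => rfl⟩
          exfalso
          rcases Nat.lt_or_ge i x with h2 | h2
          · exact hcr i x k y h2 (by omega) (by omega) hEik h
          · have h3 : x = i := by omega
            rw [h3] at h
            exact hkm y (by omega) (by omega) h
    refine ⟨Tr.nd tl tr, ?_, ?_⟩
    · rw [Tr.sz]
      omega
    · intro x y hx1 hx2 hy1 hy2 hn1 hn2
      rcases le_total x y with h | h
      · exact key x y hx1 h hy2 hn1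
      · have h2 := key y x hy1 h hx2 (fun h3 => hn2 ⟨h3.2, h3.1⟩)
        rw [(hATS.1 (Tr.nd tl tr) i x y).1]
        exact ⟨fun h3 => h2.1 (hsym _ _ h3), fun h3 => h2.2 (fun h4 => h3 (hsym _ _ h4))⟩

theorem STR (hATS : ATS_stmt) : STR_stmt := by
  classical
  intro V _ G hG hn2
  obtain ⟨⟨s, hs⟩, hmx⟩ := hG
  obtain ⟨n, hn⟩ : ∃ n : ℕ, Fintype.card V = n := ⟨_, rfl⟩
  let E : ℕ → ℕ → Prop := fun x y => ∃ u v : V, (s u : ℕ) = x ∧ (s v : ℕ) = y ∧ G.Adj u v
  have hEd : ∀ u v : V, E (s u) (s v) ↔ G.Adj u v := by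
    intro u v
    constructor
    · rintro ⟨u', v', h1, h2, h3⟩
      have h4 : u' = u := s.injective (Fin.ext h1)
      have h5 : v' = v := s.injective (Fin.ext h2)
      rwa [h4, h5] at h3
    · intro h
      exact ⟨u, v, rfl, rfl, h⟩
  have hsym : ∀ x y, E x y → E y x := by
    rintro x y ⟨u, v, h1, h2, h3⟩
    exact ⟨v, u, h2, h1, h3.symm⟩
  have hirr : ∀ x, ¬ E x x := by
    rintro x ⟨u, v, h1, h2, h3⟩
    have h4 : u = v := s.injective (Fin.ext (h1.trans h2.symm))
    rw [h4] at h3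
    exact G.loopless.irrefl v h3
  have hlt : ∀ x y, E x y → x < n ∧ y < n := by
    rintro x y ⟨u, v, rfl, rfl, h3⟩
    exact ⟨hn ▸ (s u).2, hn ▸ (s v).2⟩
  have hcr : ∀ a b c d, a < b → b < c → c < d → E a c → E b d → False := by
    rintro a b c d hab hbc hcd ⟨u, v, rfl, rfl, h3⟩ ⟨u', v', rfl, rfl, h6⟩
    exact hs u u' v v' hab hbc hcd ⟨h3, h6⟩
  have hmax : ∀ x y, x < y → y < n →
      (∀ a b, E a b → a < x → x < b → b < y → False) →
      (∀ a b, E a b → x < a → a < y → y < b → False) → E x y := by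
    intro x y hxy hyn h1 h2
    obtain ⟨u, hu⟩ : ∃ u : V, (s u : ℕ) = x :=
      ⟨s.symm ⟨x, by omega⟩, by rw [Equiv.apply_symm_apply]⟩
    obtain ⟨v, hv⟩ : ∃ v : V, (s v : ℕ) = y :=
      ⟨s.symm ⟨y, by omega⟩, by rw [Equiv.apply_symm_apply]⟩
    have huv : u ≠ v := by
      rintro rfl
      omega
    let H : SimpleGraph V := G ⊔ SimpleGraph.fromEdgeSet {s(u, v)}
    have hH : ∀ a b : V, H.Adj a b ↔ G.Adj a b ∨ ((a = u ∧ b = v) ∨ (a = v ∧ b = u)) := by
      intro a b
      show (G ⊔ SimpleGraph.fromEdgeSet {s(u, v)}).Adj a b ↔ _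
      rw [SimpleGraph.sup_adj, SimpleGraph.fromEdgeSet_adj, Set.mem_singleton_iff, Sym2.eq_iff]
      constructor
      · rintro (h | ⟨h, _⟩)
        · exact Or.inl h
        · exact Or.inr h
      · rintro (h | h)
        · exact Or.inl h
        · refine Or.inr ⟨h, ?_⟩
          rcases h with ⟨rfl, rfl⟩ | ⟨rfl, rfl⟩
          · exact huv
          · exact huv.symm
    have hHo : Outerplanar H := by
      refine ⟨s, ?_⟩
      intro a b c d hab hbc hcd hh
      rw [hH, hH] at hh
      obtain ⟨hac, hbd⟩ := hh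
      have hab' : (s a : ℕ) < s b := hab
      have hbc' : (s b : ℕ) < s c := hbc
      have hcd' : (s c : ℕ) < s d := hcd
      rcases hac with hac | (⟨rfl, rfl⟩ | ⟨rfl, rfl⟩)
      · rcases hbd with hbd | (⟨rfl, rfl⟩ | ⟨rfl, rfl⟩)
        · exact hs a b c d hab hbc hcd ⟨hac, hbd⟩
        · exact h1 _ _ ((hEd a c).2 hac) (by omega) (by omega) (by omega)
        · omega
      · rcases hbd with hbd | (⟨rfl, rfl⟩ | ⟨rfl, rfl⟩)
        · exact h2 _ _ ((hEd b d).2 hbd) (by omega) (by omega) (by omega)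
        · omega
        · omega
      · omega
    have hHG : H = G := hmx H le_sup_left hHo
    have h3 : G.Adj u v := by
      rw [← hHG, hH]
      exact Or.inr (Or.inl ⟨rfl, rfl⟩)
    exact ⟨u, v, hu, hv, h3⟩
  have h0n : E 0 (n - 1) := by
    apply hmax 0 (n - 1) (by omega) (by omega)
    · intro a b _ h1 _ _
      omega
    · intro a b h1 _ _ h4
      have := hlt a b h1
      omega
  obtain ⟨τ, hτ, hτ2⟩ := STR_claim hATS n E hsym hirr hcr hmax (n - 1) 0 (n - 1) (by omega)
    (by omega) (by omega) h0n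
  have hτ1 : τ.sz + 1 = n - 1 := by omega
  have hAT0 : AT τ 0 0 (n - 1) = 0 := by
    have := (hATS.1 τ 0 0 0).2.2.2.2
    rwa [show 0 + τ.sz + 1 = n - 1 by omega] at this
  refine ⟨τ, s, by omega, ?_⟩
  intro x y
  have hx : (s x : ℕ) < n := hn ▸ (s x).2
  have hy : (s y : ℕ) < n := hn ▸ (s y).2
  rw [← hEd x y, AG, hτ1]
  by_cases h1 : (s x : ℕ) = 0 ∧ (s y : ℕ) = n - 1
  · rw [if_pos (Or.inl h1), h1.1, h1.2, hAT0]
    exact ⟨fun _ => by norm_num, fun h => absurd h0n h⟩
  by_cases h2 : (s x : ℕ) = n - 1 ∧ (s y : ℕ) = 0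
  · rw [if_pos (Or.inr h2), h2.1, h2.2, (hATS.1 τ 0 (n - 1) 0).1, hAT0]
    exact ⟨fun _ => by norm_num, fun h => absurd (hsym _ _ h0n) h⟩
  rw [if_neg (by tauto), zero_add]
  exact hτ2 _ _ (Nat.zero_le _) (by omega) (Nat.zero_le _) (by omega) h1 h2

end Pool.Agent.MO
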