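import Pool.Agent.helper34.MO.SpecB

open Complex Finset

namespace Pool.Agent.MO

theorem VA_arg {x : ℝ} (hx : 0 < x) : arg (x : ℂ) = 0 := Complex.arg_ofReal_of_nonneg hx.le

theorem VA_tri (hEX2 : EX2_stmt) (hG2D : G2D_stmt) {f : ℝ} {A : ℂ} {P C q : ℝ} (hA : 0 < A.re)
    (hf : Good1 f A) (hP : 0 < P) (hC : 0 < C) (hq : 0 ≤ q) :
    0 ≤ f + ph3 (P : ℂ) (A + q) (C : ℂ) (-I) (-I) (-I) := by
  have hPc : (P : ℂ) ≠ 0 := Complex.ofReal_ne_zero.2 hP.ne'
  have hP1 : 0 < 1 / P := by positivity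
  have hI : (-I) ^ 2 = (-1 : ℂ) := by rw [neg_sq, Complex.I_sq]
  have hI2 : (-I) * (-I) = (-1 : ℂ) := by rw [neg_mul_neg, Complex.I_mul_I]
  have e1 : (A + q) - (-I) ^ 2 / (P : ℂ) = A + q + ((1 / P : ℝ) : ℂ) := by
    rw [hI]
    push_cast
    ring
  have e2 : (C : ℂ) - (-I) ^ 2 / (P : ℂ) = ((C + 1 / P : ℝ) : ℂ) := by
    rw [hI]
    push_cast
    ring
  have e3 : -I - (-I) * (-I) / (P : ℂ) = -I + ((1 / P : ℝ) : ℂ) := by
    rw [hI2]
    push_cast
    ring
  have hC1 : 0 < C + 1 / P := by positivity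
  have hacc : Acc2 (A + q + ((1 / P : ℝ) : ℂ)) ((C + 1 / P : ℝ) : ℂ) (-I + ((1 / P : ℝ) : ℂ)) := by
    have r1 : (A + q + ((1 / P : ℝ) : ℂ)).re = A.re + q + 1 / P := by
      rw [Complex.add_re, Complex.add_re, Complex.ofReal_re, Complex.ofReal_re]
    have r2 : (-I + ((1 / P : ℝ) : ℂ)).re = 1 / P := by
      rw [Complex.add_re, Complex.neg_re, Complex.I_re, Complex.ofReal_re]
      ring
    refine ⟨?_, ?_, ?_⟩
    · rw [r1]
      positivity
    · rw [Complex.ofReal_re]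
      exact hC1
    · rw [r1, r2, Complex.ofReal_re]
      have h1 : 0 < (A.re + q) * (C + 1 / P) := by positivity
      have h2 : 0 < 1 / P * C := by positivity
      nlinarith
  rw [ph3, e1, e2, e3, VA_arg hP, (hEX2 _ _ _ hacc).1, ph2, VA_arg hC1, zero_add, zero_add]
  have hPC : 0 < P * C + 1 := by positivity
  have hPCc : ((P : ℂ) * C + 1) ≠ 0 := by
    have := Complex.ofReal_ne_zero.2 hPC.ne'
    push_cast at this
    exact this
  have e4 : A + q + ((1 / P : ℝ) : ℂ) - (-I + ((1 / P : ℝ) : ℂ)) ^ 2 / ((C + 1 / P : ℝ) : ℂ) =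
      A + (((q + (P + C) / (P * C + 1) : ℝ) : ℂ) + ((2 / (P * C + 1) : ℝ) : ℂ) * I) := by
    have h1 : ((C + 1 / P : ℝ) : ℂ) = ((P : ℂ) * C + 1) / P := by
      push_cast
      field_simp
    have h2 : (-I + ((1 / P : ℝ) : ℂ)) ^ 2 = (-1 : ℂ) - 2 * I / P + 1 / (P : ℂ) ^ 2 := by
      have : (-I + ((1 / P : ℝ) : ℂ)) ^ 2 = I ^ 2 - 2 * I / P + 1 / (P : ℂ) ^ 2 := by
        push_cast
        ring
      rw [this, Complex.I_sq]
    rw [h1, h2]
    push_cast
    field_simp
    ring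
  rw [e4]
  have h5 := (hG2D.2 f A hA hf).2
    (((q + (P + C) / (P * C + 1) : ℝ) : ℂ) + ((2 / (P * C + 1) : ℝ) : ℂ) * I)
    (by
      rw [Complex.add_re, Complex.re_ofReal_mul, Complex.I_re, Complex.ofReal_re]
      have : 0 ≤ (P + C) / (P * C + 1) := by positivity
      linarith)
    (by
      rw [Complex.add_im, Complex.im_ofReal_mul, Complex.I_im, Complex.ofReal_im]
      have : 0 ≤ 2 / (P * C + 1) := by positivity
      linarith) 0 le_rfl
  rwa [Complex.ofReal_zero, add_zero] at h5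

/-- exchange of the first two indices -/
theorem VA_swap (hEX2 : EX2_stmt) {A B C x y z : ℂ} (h : Acc2 A B x) :
    ph3 A B C x y z = ph3 B A C x z y := by
  have hA : A ≠ 0 := by
    rintro rfl
    have := h.1
    simp at this
  have hB : B ≠ 0 := by
    rintro rfl
    have := h.2.1
    simp at this
  obtain ⟨h1, h2⟩ := hEX2 A B x h
  have h3 : B - x ^ 2 / A ≠ 0 := by
    intro h3
    rw [h3] at h2
    simp at h2
  have h4 : A * B - x ^ 2 ≠ 0 := by
    intro h4
    apply h3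
    field_simp
    linear_combination h4
  have h5 : A - x ^ 2 / B ≠ 0 := by
    intro h5
    apply h4
    field_simp at h5
    linear_combination h5
  have e : C - y ^ 2 / A - (z - x * y / A) ^ 2 / (B - x ^ 2 / A) =
      C - z ^ 2 / B - (y - x * z / B) ^ 2 / (A - x ^ 2 / B) := by
    have e1 : B - x ^ 2 / A = (A * B - x ^ 2) / A := by
      field_simp
    have e2 : A - x ^ 2 / B = (A * B - x ^ 2) / B := by
      field_simp
    rw [e1, e2]
    field_simp
    ring
  rw [ph2, ph2] at h1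
  rw [ph3, ph3, ph2, ph2, e, ← add_assoc, ← add_assoc, h1]

theorem VA (hPHS : PHS_stmt) (hPHE : PHE_stmt) (hEV : EV_stmt) (hA2P : A2P_stmt)
    (hACG : ACG_stmt) (hEX2 : EX2_stmt) (hG2D : G2D_stmt) : VA_stmt := by
  intro f A T lt' hA hf hT hlt
  have hI : (-I) ^ 2 = (-1 : ℂ) := by rw [neg_sq, Complex.I_sq]
  have hre : ∀ p : ℝ, 0 ≤ p → 0 < (A + p).re := by
    intro p hp
    rw [Complex.add_re, Complex.ofReal_re]
    positivity
  have hTc : ∀ q : ℝ, (T : ℂ) + q = ((T + q : ℝ) : ℂ) := by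
    intro q
    push_cast
    ring
  have hTq : ∀ q : ℝ, 0 ≤ q → 0 < T + q := by
    intro q hq
    positivity
  have haccm : ∀ (p q : ℝ) (m : ℂ), 0 ≤ p → 0 ≤ q → m.re = 0 → Acc2 (A + p) (T + q) m := by
    intro p q m hp hq hm
    refine ⟨hre p hp, ?_, ?_⟩
    · rw [hTc, Complex.ofReal_re]
      exact hTq q hq
    · rw [hTc, Complex.ofReal_re, hm]
      have := mul_pos (hre p hp) (hTq q hq)
      rw [zero_pow two_ne_zero]
      exact this
  have haccT : Acc2 (T : ℂ) A (-I) := by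
    refine ⟨?_, hA, ?_⟩
    · rw [Complex.ofReal_re]
      exact hT
    · rw [Complex.ofReal_re, Complex.neg_re, Complex.I_re]
      have := mul_pos hT hA
      nlinarith
  -- the phases of two indices
  have hp1 : ∀ p q : ℝ, 0 ≤ p → 0 ≤ q → 0 ≤ f + ph2 (T + q) (A + p) (-I) := by
    intro p q hp hq
    have h1 := hTq q hq
    have h2 := hf (p + 1 / (T + q)) (by positivity)
    have e1 : A + (p : ℂ) - (-I) ^ 2 / ((T + q : ℝ) : ℂ) = A + ((p + 1 / (T + q) : ℝ) : ℂ) := by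
      rw [hI]
      push_cast
      ring
    rw [ph2, hTc, VA_arg h1, e1, zero_add]
    exact h2
  have hp0 : ∀ p q : ℝ, 0 ≤ p → 0 ≤ q → 0 ≤ f + ph2 (T + q) (A + p) (-I + I) := by
    intro p q hp hq
    have h1 := hTq q hq
    have h2 := hf p hp
    have e1 : A + (p : ℂ) - (-I + I) ^ 2 / ((T + q : ℝ) : ℂ) = A + (p : ℂ) := by
      rw [neg_add_cancel]
      simp
    rw [ph2, hTc, VA_arg h1, e1, zero_add]
    exact h2
  constructor
  · refine ⟨?_, ?_, ?_⟩
    · have := haccm 0 0 (-I) le_rfl le_rfl (by simp)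
      rw [Complex.ofReal_zero, add_zero, add_zero] at this
      exact this
    · intro p q hp hq
      show 0 ≤ f + ph2 (A + p) (T + q) (-I)
      rw [(hEX2 _ _ _ (haccm p q (-I) hp hq (by simp))).1]
      exact hp1 p q hp hq
    · intro a ha
      refine ⟨?_, ?_⟩
      · intro p q hp hq
        show 0 ≤ f + ph2 (A + p) (T + q) (-I + I)
        rw [(hEX2 _ _ _ (haccm p q (-I + I) hp hq (by simp))).1]
        exact hp0 p q hp hq
      · intro p q T' hp hq hT'
        show 0 ≤ f + ph3 (A + p) (T + q) T' (-I) (-I) (-I)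
        rw [VA_swap hEX2 (haccm p q (-I) hp hq (by simp)), hTc]
        have ha0 := hlt a ha
        exact VA_tri hEX2 hG2D hA hf (hTq q hq) (by linarith) hp
  · refine ⟨haccT, ?_, ?_⟩
    · intro p q hp hq
      exact hp1 q p hq hp
    · intro a ha
      refine ⟨?_, ?_⟩
      · intro p q hp hq
        exact hp0 q p hq hp
      · intro p q T' hp hq hT'
        show 0 ≤ f + ph3 (T + p) (A + q) T' (-I) (-I) (-I)
        rw [hTc]
        have ha0 := hlt a ha
        exact VA_tri hEX2 hG2D hA hf (hTq p hp) (by linarith) hq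

end Pool.Agent.MO
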